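import Pool.Agent.Lib.MP_b5021c_nt.All
import Pool.Agent.Lib.MP_b5021c_nt.B.H20.E0Cpl
import Pool.Agent.Lib.MP_b5021c_nt.E.H59.LatRes
import Pool.Agent.Lib.MP_b5021c_nt.E.H61.Fsp
import Pool.Agent.Lib.MP_b5021c_nt.E.H61.Inj
import Pool.Agent.Lib.MP_b5021c_nt.E.H61.Np2
import Pool.Agent.Lib.MP_b5021c_nt.E.H63.E0Fpt

/-!
# Board b5, stage 3, chapter E0: everything, without hypotheses
-/

namespace Pool.Agent.B5.AllE0

open Pool.Agent.B5 Pool.Agent.MP_b5021c_nt.All

theorem cplS : CplS := H20.cpl r_FacetS r_ComplIrrS r_ComplS r_RkS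

theorem symLS : SymLS := H63.E0.sym r_UnitAS r_RkS

theorem twoRedS : TwoRedS := H63.E0.two cplS symLS

theorem latResS : LatResS := H59.latRes r_UnitAS

theorem fptS : FptS := H63.E0.fpt latResS r_D3S r_RkS

/-- Reduction to facet ports. -/
theorem fpRedS : FpRedS := H63.E0.red twoRedS fptS latResS

theorem fspS : FspS := H61.fsp r_D3S r_RkS

theorem inj1S : Inj1S := H61.inj1 fspS

theorem twfS : TwfS := H61.twf r_D2S r_F1S r_F2S inj1S

theorem inj2S : Inj2S := H61.inj2 fspS twfS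

theorem clpS : ClpS := H61.clp r_G0S r_ResWDS r_ResStS inj1S

theorem noPure2S : NoPure2S := H61.np2 inj2S

end Pool.Agent.B5.AllE0
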