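import Pool.Agent.Lib.MP_b5021c_nt.All2
import Pool.Agent.Lib.MP_b5021c_nt.E.AllE0
import Pool.Agent.Lib.MP_b5021c_nt.E.H19.Evs
import Pool.Agent.Lib.MP_b5021c_nt.E.H23.Evb
import Pool.Agent.Lib.MP_b5021c_nt.E.H24.Sev
import Pool.Agent.Lib.MP_b5021c_nt.E.H45.Apg
import Pool.Agent.Lib.MP_b5021c_nt.E.H47.Evt
import Pool.Agent.Lib.MP_b5021c_nt.E.H57.Evf
import Pool.Agent.Lib.MP_b5021c_nt.E.H57.Jev
import Pool.Agent.Lib.MP_b5021c_nt.E.H70.Evo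
import Pool.Agent.Lib.MP_b5021c_nt.E.H79.Evm
import Pool.Agent.Lib.MP_b5021c_nt.E.H79.Evp
import Pool.Agent.Lib.MP_b5021c_nt.E.H90.Lsb
import Pool.Agent.Lib.MP_b5021c_nt.E.H90.Lsn
import Pool.Agent.Lib.MP_b5021c_nt.E.H96.Evl
import Pool.Agent.Lib.MP_b5021c_nt.EV.H64.Aph
import Pool.Agent.Lib.MP_b5021c_nt.B.H93.Cev

/-!
# Board b5, stage 3, chapter EV: everything, from `TrvS` (chapter E3V) and the numeric row `EvtS`
-/

namespace Pool.Agent.B5.AllEV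

open Pool.Agent.B5 Pool.Agent.MP_b5021c_nt.All2

theorem evmS : EvmS := H79.evm

theorem evpS : EvpS := H79.evp

theorem evtS : EvtS := EV47.evt evmS evpS

theorem ev7S : Ev7S := H24sev.sev

theorem evbS : EvbS := H23.evb r_BstS

theorem evlS : EvlS := H96.evl r_VZS r_MevS r_A6S r_EvRS

theorem evoS : EvoS := H70.evo r_Fl2S r_E2S r_EvRS

theorem evsS : EvsS := H19.evs r_RkS r_QstS r_QraS r_SmallS r_SpjS r_PrimS r_ComS r_BpeS

theorem apgS : ApgS := H45.apg r_EvRS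

theorem aphS : AphS := EV64.aph r_SmallS r_KmuS r_ApaS apgS r_E2S

theorem lsbS : LsbS :=
  H90.lsb r_A4S r_A2cS r_A6S r_A7S r_I1S r_I2S r_GenS r_MultiS r_SmallS r_EvRS r_ZfinS r_StSpecS
    r_G0S r_E2S

theorem lsnS : LsnS := H90.lsn lsbS r_A2S r_MmulS

theorem cevS : CevS := H93.cev AllE0.clpS r_G1pS lsnS r_MVS r_E1S r_MmulS evmS

theorem jevS (hTrv : TrvS) (hTab : EvtS) : JevS :=
  H57.jev evoS evlS evbS evpS hTab ev7S evmS evsS aphS cevS hTrv r_FDS r_E2S r_RkS r_AdjSyS r_MVS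

/-- Class `V` over the Eisenstein integers. -/
theorem evS (hTrv : TrvS) (hTab : EvtS) : EvS :=
  H57.ev (jevS hTrv hTab) AllE0.fpRedS r_E2S evlS evmS r_RkS

theorem evrS (hTrv : TrvS) (hTab : EvtS) : EvrS := H57.evr (evS hTrv hTab) evmS

end Pool.Agent.B5.AllEV
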